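import Pool.Agent.D0H95.BF.Stm5

/-!
Module NDG: nondegeneracy of the period map of the circular problem.
-/

set_option autoImplicit false

open Filter Topology Set TensorProduct

namespace Pool.Agent.D0H9.BF.Ndg

open Pool.Agent.D0H95.BF

/-- The initial values of the solution with exponent `l` and amplitude `c`. -/
noncomputable def Psi (κ : ℝ) (l y c : ℂ) : ℂ × ℂ :=
  (κ * c + (starRingEnd ℂ) (y * c),
    κ * (Complex.I * l * c) + (starRingEnd ℂ) (y * (Complex.I * l * c)))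

theorem period (κ : ℝ) (N0 : ℂ × ℂ →L[ℝ] ℂ × ℂ)
    (hN : ∀ ζ η : ℝ → ℂ, (∀ u, HasDerivAt ζ (η u) u) →
      (∀ u, HasDerivAt η (3 / 2 * ζ u + κ * (starRingEnd ℂ) (ζ u) - 2 * Complex.I * η u) u) →
      N0 (ζ 0, η 0) = (ζ (2 * Real.pi), η (2 * Real.pi)))
    (l y : ℂ) (h1 : y = -(l ^ 2 + 2 * l + 3 / 2)) (h2 : l ^ 4 - l ^ 2 + (9 / 4 - (κ : ℂ) ^ 2) = 0)
    (c : ℂ) :
    N0 (Psi κ l y c) = Psi κ l y (Complex.exp (2 * Real.pi * Complex.I * l) * c) := by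
  set e : ℝ → ℂ := fun u => Complex.exp (Complex.I * l * (u : ℂ)) * c with he
  have hde : ∀ u, HasDerivAt e (Complex.I * l * e u) u := by
    intro u
    have e0 : HasDerivAt (fun u : ℝ => (u : ℂ)) 1 u := Complex.ofRealCLM.hasDerivAt
    have e1 : HasDerivAt (fun u : ℝ => Complex.I * l * (u : ℂ)) (Complex.I * l) u := by
      have := e0.const_mul (Complex.I * l)
      rwa [mul_one] at this
    have e2 := e1.cexp.mul_const c
    have e3 : Complex.exp (Complex.I * l * (u : ℂ)) * (Complex.I * l) * c = Complex.I * l * e u := by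
      simp only [he]; ring
    rw [e3] at e2
    exact e2
  have hconj : ∀ (f : ℝ → ℂ) (f' : ℂ) (u : ℝ), HasDerivAt f f' u →
      HasDerivAt (fun u => (starRingEnd ℂ) (f u)) ((starRingEnd ℂ) f') u := by
    intro f f' u hf
    exact (Complex.conjCLE.toContinuousLinearMap.hasFDerivAt.comp_hasDerivAt u hf)
  set ζ : ℝ → ℂ := fun u => κ * e u + (starRingEnd ℂ) (y * e u) with hζ
  set η : ℝ → ℂ := fun u => κ * (Complex.I * l * e u) + (starRingEnd ℂ) (y * (Complex.I * l * e u))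
    with hη
  have hζ' : ∀ u, HasDerivAt ζ (η u) u := by
    intro u
    exact ((hde u).const_mul (κ : ℂ)).add (hconj _ _ u ((hde u).const_mul y))
  have hη' : ∀ u, HasDerivAt η (3 / 2 * ζ u + κ * (starRingEnd ℂ) (ζ u) - 2 * Complex.I * η u) u := by
    intro u
    have h3 := (((hde u).const_mul (Complex.I * l)).const_mul (κ : ℂ)).add
      (hconj _ _ u (((hde u).const_mul (Complex.I * l)).const_mul y))
    have h4 : κ * (Complex.I * l * (Complex.I * l * e u)) +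
        (starRingEnd ℂ) (y * (Complex.I * l * (Complex.I * l * e u))) =
        3 / 2 * ζ u + κ * (starRingEnd ℂ) (ζ u) - 2 * Complex.I * η u := by
      have hI : Complex.I * Complex.I = -1 := Complex.I_mul_I
      have hy2 : (starRingEnd ℂ) y * (starRingEnd ℂ) l ^ 2 + 3 / 2 * (starRingEnd ℂ) y + (κ : ℂ) ^ 2
          - 2 * (starRingEnd ℂ) y * (starRingEnd ℂ) l = 0 := by
        have e1 : y * l ^ 2 + 3 / 2 * y + (κ : ℂ) ^ 2 - 2 * y * l = 0 := by
          rw [h1]; linear_combination (-1) * h2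
        have e2 := congrArg (starRingEnd ℂ) e1
        simp only [map_add, map_sub, map_mul, map_pow, map_div₀, Complex.conj_ofReal, map_zero,
          map_ofNat] at e2
        exact e2
      simp only [hζ, hη, map_add, map_mul, Complex.conj_conj, Complex.conj_ofReal, Complex.conj_I]
      have hy1 : (κ : ℂ) * (l ^ 2 + 2 * l + 3 / 2 + y) = 0 := by rw [h1]; ring
      linear_combination (κ * l ^ 2 * e u + (starRingEnd ℂ) y * (starRingEnd ℂ) l ^ 2 * (starRingEnd ℂ) (e u) + 2 * κ * l * e u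
        - 2 * (starRingEnd ℂ) y * (starRingEnd ℂ) l * (starRingEnd ℂ) (e u)) * hI - e u * hy1 - (starRingEnd ℂ) (e u) * hy2
    rw [← h4]
    exact h3
  have h5 := hN ζ η hζ' hη'
  have h6 : e 0 = c := by simp [he]
  have h7 : e (2 * Real.pi) = Complex.exp (2 * Real.pi * Complex.I * l) * c := by
    simp only [he]
    congr 2
    push_cast
    ring
  have h8 : ∀ u, (ζ u, η u) = Psi κ l y (e u) := fun u => rfl
  rw [h8, h8, h6, h7] at h5
  exact h5

theorem Psi_lin (κ : ℝ) (l y : ℂ) (a b : ℝ) :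
    Psi κ l y (a + b * Complex.I) = a • Psi κ l y 1 + b • Psi κ l y Complex.I := by
  unfold Psi
  ext <;> simp <;> ring

/-- The eigenvector. -/
noncomputable def U (κ : ℝ) (l y : ℂ) : ℂ ⊗[ℝ] (ℂ × ℂ) :=
  (1 : ℂ) ⊗ₜ[ℝ] Psi κ l y 1 - Complex.I ⊗ₜ[ℝ] Psi κ l y Complex.I

theorem U_ne (κ : ℝ) (hκ : κ ≠ 0) (l y : ℂ) : U κ l y ≠ 0 := by
  intro h
  have h1 := congrArg (TensorProduct.lift
    ((LinearMap.mul ℝ ℂ).compl₂ (LinearMap.fst ℝ ℂ ℂ))) h
  simp only [U, map_sub, TensorProduct.lift.tmul, map_zero, LinearMap.compl₂_apply,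
    LinearMap.mul_apply', LinearMap.fst_apply, Psi] at h1
  apply hκ
  have hI : Complex.I * Complex.I = -1 := Complex.I_mul_I
  simp only [map_mul, map_one, Complex.conj_I] at h1
  have h2 : (2 : ℂ) * κ = 0 := by
    linear_combination h1 + (κ - (starRingEnd ℂ) y) * hI
  have h3 : (κ : ℂ) = 0 := by
    rcases mul_eq_zero.1 h2 with h4 | h4
    · norm_num at h4
    · exact h4
  exact_mod_cast h3

theorem T_U (κ : ℝ) (N0 : ℂ × ℂ →L[ℝ] ℂ × ℂ) (l y m : ℂ)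
    (h : ∀ c, N0 (Psi κ l y c) = Psi κ l y (m * c)) :
    (N0 : ℂ × ℂ →ₗ[ℝ] ℂ × ℂ).baseChange ℂ (U κ l y) = m • U κ l y := by
  have hm : m = (m.re : ℂ) + m.im * Complex.I := (Complex.re_add_im m).symm
  have h1 : N0 (Psi κ l y 1) = m.re • Psi κ l y 1 + m.im • Psi κ l y Complex.I := by
    rw [h, mul_one, ← Psi_lin, ← hm]
  have h2 : N0 (Psi κ l y Complex.I) = (-m.im) • Psi κ l y 1 + m.re • Psi κ l y Complex.I := by
    rw [h, ← Psi_lin]
    congr 1
    have hI : Complex.I * Complex.I = -1 := Complex.I_mul_I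
    push_cast
    linear_combination (Complex.I) * hm + (m.im : ℂ) * hI
  have h3 : m * 1 = m.re • (1 : ℂ) + m.im • Complex.I := by
    rw [mul_one, Complex.real_smul, Complex.real_smul, mul_one, ← hm]
  have h4 : m * Complex.I = m.re • Complex.I + (-m.im) • (1 : ℂ) := by
    have hI : Complex.I * Complex.I = -1 := Complex.I_mul_I
    rw [Complex.real_smul, Complex.real_smul]
    push_cast
    linear_combination (Complex.I) * hm + (m.im : ℂ) * hI
  unfold U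
  rw [map_sub, LinearMap.baseChange_tmul, LinearMap.baseChange_tmul, ContinuousLinearMap.coe_coe,
    h1, h2, smul_sub, TensorProduct.smul_tmul', TensorProduct.smul_tmul', smul_eq_mul, smul_eq_mul,
    h3, h4]
  simp only [TensorProduct.tmul_add, TensorProduct.tmul_smul, TensorProduct.add_tmul,
    TensorProduct.smul_tmul]
  module

/-- The nondegeneracy function from four eigenvalues `m₁, m₁⁻¹, m₂, m₂⁻¹`. -/
theorem nd_ne (N0 : ℂ × ℂ →L[ℝ] ℂ × ℂ) (μ : Fin 4 → ℂ) (v : Fin 4 → ℂ ⊗[ℝ] (ℂ × ℂ))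
    (hv : ∀ i, v i ≠ 0) (hμ : Function.Injective μ)
    (h : ∀ i, (N0 : ℂ × ℂ →ₗ[ℝ] ℂ × ℂ).baseChange ℂ (v i) = μ i • v i)
    (m₁ m₂ n₁ n₂ : ℂ) (hμe : μ = ![m₁, n₁, m₂, n₂]) (h1 : m₁ * n₁ = 1) (h2 : m₂ * n₂ = 1) :
    nd N0 ≠ 0 := by
  set T := (N0 : ℂ × ℂ →ₗ[ℝ] ℂ × ℂ).baseChange ℂ with hT
  have hli : LinearIndependent ℂ v :=
    Module.End.eigenvectors_linearIndependent' T μ hμ v
      (fun i => ⟨Module.End.mem_eigenspace_iff.2 (h i), hv i⟩)
  have hfr : Module.finrank ℂ (ℂ ⊗[ℝ] (ℂ × ℂ)) = 4 := by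
    rw [Module.finrank_baseChange, Module.finrank_prod, Complex.finrank_real_complex]
  let b := basisOfLinearIndependentOfCardEqFinrank hli (by rw [hfr]; simp)
  have hb : ∀ i, b i = v i := fun i => by
    simp [b]
  have htr : ∀ (S : ℂ ⊗[ℝ] (ℂ × ℂ) →ₗ[ℂ] ℂ ⊗[ℝ] (ℂ × ℂ)) (ν : Fin 4 → ℂ),
      (∀ i, S (v i) = ν i • v i) → LinearMap.trace ℂ _ S = ∑ i, ν i := by
    intro S ν hS
    rw [LinearMap.trace_eq_matrix_trace ℂ b, Matrix.trace]
    apply Finset.sum_congr rfl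
    intro i _
    rw [Matrix.diag_apply, LinearMap.toMatrix_apply, hb, hS, ← hb, map_smul, b.repr_self]
    simp
  have t1 : ((tr N0 : ℝ) : ℂ) = ∑ i, μ i := by
    rw [← htr T μ h, hT, LinearMap.trace_baseChange]
    rfl
  have t2 : ((tr (N0.comp N0) : ℝ) : ℂ) = ∑ i, μ i ^ 2 := by
    rw [← htr (T ∘ₗ T) (fun i => μ i ^ 2) (fun i => by
      rw [LinearMap.comp_apply, h, map_smul, h, smul_smul, pow_two]), hT,
      ← LinearMap.baseChange_comp, LinearMap.trace_baseChange]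
    rfl
  intro h0
  have h3 : ((nd N0 : ℝ) : ℂ) = 0 := by rw [h0]; simp
  have h4 : ((nd N0 : ℝ) : ℂ) = ((m₁ - m₂) * (m₁ - n₂) * (n₁ - m₂) * (n₁ - n₂)) *
      ((m₁ - n₁) ^ 2 * (m₂ - n₂) ^ 2) := by
    unfold nd b2
    push_cast
    rw [t1, t2, hμe]
    simp only [Fin.sum_univ_four, Matrix.cons_val_zero, Matrix.cons_val_one, Matrix.cons_val]
    have e1 : ((m₁ + n₁ + m₂ + n₂) ^ 2 - (m₁ ^ 2 + n₁ ^ 2 + m₂ ^ 2 + n₂ ^ 2)) / 2 =
        (m₁ + n₁) * (m₂ + n₂) + 2 := by linear_combination h1 + h2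
    have e2 : (m₁ - m₂) * (m₁ - n₂) = m₁ * ((m₁ + n₁) - (m₂ + n₂)) := by
      linear_combination h2 - h1
    have e3 : (n₁ - m₂) * (n₁ - n₂) = n₁ * ((m₁ + n₁) - (m₂ + n₂)) := by
      linear_combination h2 - h1
    have e4 : (m₁ - m₂) * (m₁ - n₂) * (n₁ - m₂) * (n₁ - n₂) =
        ((m₁ + n₁) - (m₂ + n₂)) ^ 2 := by
      calc (m₁ - m₂) * (m₁ - n₂) * (n₁ - m₂) * (n₁ - n₂)
          = ((m₁ - m₂) * (m₁ - n₂)) * ((n₁ - m₂) * (n₁ - n₂)) := by ring
        _ = (m₁ * n₁) * ((m₁ + n₁) - (m₂ + n₂)) ^ 2 := by rw [e2, e3]; ring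
        _ = _ := by rw [h1, one_mul]
    have e5 : (m₁ - n₁) ^ 2 = (m₁ + n₁) ^ 2 - 4 := by linear_combination (-4) * h1
    have e6 : (m₂ - n₂) ^ 2 = (m₂ + n₂) ^ 2 - 4 := by linear_combination (-4) * h2
    rw [e1, e4, e5, e6]
    ring
  rw [h4] at h3
  have hne : ∀ i j, i ≠ j → μ i - μ j ≠ 0 := fun i j hij => sub_ne_zero.2 (fun h => hij (hμ h))
  have a1 := hne 0 1 (by decide)
  have a2 := hne 0 2 (by decide)
  have a3 := hne 0 3 (by decide)
  have a4 := hne 1 2 (by decide)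
  have a5 := hne 1 3 (by decide)
  have a6 := hne 2 3 (by decide)
  rw [hμe] at a1 a2 a3 a4 a5 a6
  simp only [Matrix.cons_val_zero, Matrix.cons_val_one, Matrix.cons_val] at a1 a2 a3 a4 a5 a6
  exact (mul_ne_zero (mul_ne_zero (mul_ne_zero (mul_ne_zero a2 a3) a4) a5)
    (mul_ne_zero (pow_ne_zero 2 a1) (pow_ne_zero 2 a6))) h3

theorem exp_eq_int (l : ℂ) (h : Complex.exp (2 * Real.pi * Complex.I * l) = 1) :
    ∃ n : ℤ, l = n := by
  obtain ⟨n, hn⟩ := Complex.exp_eq_one_iff.1 h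
  refine ⟨n, ?_⟩
  have h1 : (2 * Real.pi * Complex.I : ℂ) ≠ 0 := Complex.two_pi_I_ne_zero
  apply mul_left_cancel₀ h1
  rw [hn]
  ring

/-- The period map of the circular problem is nondegenerate. -/
theorem main (κ : ℝ) (hκ : κ ^ 2 < 9 / 4) (h0 : κ ≠ 0) (hκ2 : κ ^ 2 ≠ 2) (hκ3 : κ ^ 2 ≠ 33 / 16)
    (N0 : ℂ × ℂ →L[ℝ] ℂ × ℂ)
    (hN : ∀ ζ η : ℝ → ℂ, (∀ u, HasDerivAt ζ (η u) u) →
      (∀ u, HasDerivAt η (3 / 2 * ζ u + κ * (starRingEnd ℂ) (ζ u) - 2 * Complex.I * η u) u) →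
      N0 (ζ 0, η 0) = (ζ (2 * Real.pi), η (2 * Real.pi))) : nd N0 ≠ 0 := by
  obtain ⟨s, hs⟩ := IsAlgClosed.exists_pow_nat_eq (1 - (9 - 4 * (κ : ℂ) ^ 2)) (n := 2) (by norm_num)
  obtain ⟨l₁, hl1⟩ := IsAlgClosed.exists_pow_nat_eq ((1 - s) / 2) (n := 2) (by norm_num)
  obtain ⟨l₂, hl2⟩ := IsAlgClosed.exists_pow_nat_eq ((1 + s) / 2) (n := 2) (by norm_num)
  have hsum : l₁ ^ 2 + l₂ ^ 2 = 1 := by rw [hl1, hl2]; ring
  have hprod : l₁ ^ 2 * l₂ ^ 2 = 9 / 4 - (κ : ℂ) ^ 2 := by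
    rw [hl1, hl2]; linear_combination (-1 / 4) * hs
  have hq1 : l₁ ^ 4 - l₁ ^ 2 + (9 / 4 - (κ : ℂ) ^ 2) = 0 := by
    rw [← hprod]; linear_combination l₁ ^ 2 * hsum
  have hq2 : l₂ ^ 4 - l₂ ^ 2 + (9 / 4 - (κ : ℂ) ^ 2) = 0 := by
    rw [← hprod]; linear_combination l₂ ^ 2 * hsum
  -- no half-integral exponents
  have hhalf : ∀ l : ℂ, l ^ 4 - l ^ 2 + (9 / 4 - (κ : ℂ) ^ 2) = 0 → ∀ n : ℤ, 2 * l ≠ n := by
    intro l hl n hn
    have e1 : (n : ℂ) ^ 4 - 4 * (n : ℂ) ^ 2 + 16 * (9 / 4 - (κ : ℂ) ^ 2) = 0 := by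
      rw [← hn]; linear_combination 16 * hl
    have e2 : (n : ℝ) ^ 4 - 4 * (n : ℝ) ^ 2 + 16 * (9 / 4 - κ ^ 2) = 0 := by
      apply Complex.ofReal_injective
      push_cast
      exact e1
    rcases lt_or_ge (n ^ 2) 4 with h4 | h4
    · have h5 : n < 2 := by nlinarith
      have h6 : -2 < n := by nlinarith
      interval_cases n
      · apply hκ3; norm_num at e2; linarith
      · norm_num at e2; linarith
      · apply hκ3; norm_num at e2; linarith
    · have h5 : (4 : ℝ) ≤ (n : ℝ) ^ 2 := by exact_mod_cast h4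
      nlinarith
  have hint : ∀ l l' : ℂ, l ^ 2 + l' ^ 2 = 1 → l ^ 2 * l' ^ 2 = 9 / 4 - (κ : ℂ) ^ 2 →
      ∀ n : ℤ, l + l' ≠ n := by
    intro l l' e1 e2 n hn
    have e3 : ((n : ℂ) ^ 2 - 1) ^ 2 = 9 - 4 * (κ : ℂ) ^ 2 := by
      rw [← hn]
      have e4 : (l + l') ^ 2 - 1 = 2 * (l * l') := by linear_combination e1
      rw [e4]
      linear_combination 4 * e2
    have e5 : ((n : ℝ) ^ 2 - 1) ^ 2 = 9 - 4 * κ ^ 2 := by exact_mod_cast e3
    have hk : 0 < κ ^ 2 := by positivity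
    rcases lt_or_ge (n ^ 2) 4 with h4 | h4
    · have h5 : n < 2 := by nlinarith
      have h6 : -2 < n := by nlinarith
      interval_cases n
      · norm_num at e5; linarith
      · apply hκ2; norm_num at e5; linarith
      · norm_num at e5; linarith
    · have h5 : (4 : ℝ) ≤ (n : ℝ) ^ 2 := by exact_mod_cast h4
      nlinarith
  set E : ℂ → ℂ := fun l => Complex.exp (2 * Real.pi * Complex.I * l) with hE
  have hEeq : ∀ l l', E l = E l' → ∃ n : ℤ, l - l' = n := by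
    intro l l' h
    apply exp_eq_int
    rw [mul_sub, Complex.exp_sub]
    change E l / E l' = 1
    rw [h]
    exact div_self (Complex.exp_ne_zero _)
  let L : Fin 4 → ℂ := ![l₁, -l₁, l₂, -l₂]
  have hL : ∀ i, (L i) ^ 4 - (L i) ^ 2 + (9 / 4 - (κ : ℂ) ^ 2) = 0 := by
    intro i
    fin_cases i
    · exact hq1
    · change (-l₁) ^ 4 - (-l₁) ^ 2 + _ = 0
      linear_combination hq1
    · exact hq2
    · change (-l₂) ^ 4 - (-l₂) ^ 2 + _ = 0
      linear_combination hq2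
  have hhalf1 := hhalf l₁ hq1
  have hhalf2 := hhalf l₂ hq2
  have hp := hint l₁ l₂ hsum hprod
  have hm := hint l₁ (-l₂) (by linear_combination hsum) (by linear_combination hprod)
  have hdist : ∀ i j : Fin 4, i < j → ∀ n : ℤ, L i - L j ≠ n := by
    intro i j hij n hn
    fin_cases i <;> fin_cases j <;> simp [L] at hij hn
    · exact hhalf1 n (by rw [← hn]; ring)
    · exact hm n (by rw [← hn]; ring)
    · exact hp n (by rw [← hn])
    · exact hp (-n) (by push_cast; rw [← hn]; ring)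
    · exact hm (-n) (by push_cast; rw [← hn]; ring)
    · exact hhalf2 n (by rw [← hn]; ring)
  let Y : Fin 4 → ℂ := fun i => -((L i) ^ 2 + 2 * (L i) + 3 / 2)
  apply nd_ne N0 (fun i => E (L i)) (fun i => U κ (L i) (Y i)) (fun i => U_ne κ h0 _ _) ?_
    (fun i => T_U κ N0 (L i) (Y i) (E (L i)) (fun c => period κ N0 hN (L i) (Y i) rfl (hL i) c))
    (E l₁) (E l₂) (E (-l₁)) (E (-l₂))
  · funext i
    fin_cases i <;> rfl
  · simp only [hE]
    rw [← Complex.exp_add, ← Complex.exp_zero]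
    congr 1
    ring
  · simp only [hE]
    rw [← Complex.exp_add, ← Complex.exp_zero]
    congr 1
    ring
  · intro i j hij
    by_contra hne
    obtain ⟨n, hn⟩ := hEeq _ _ hij
    rcases lt_or_gt_of_ne hne with h5 | h5
    · exact hdist i j h5 n hn
    · exact hdist j i h5 (-n) (by push_cast; rw [← hn]; ring)

end Pool.Agent.D0H9.BF.Ndg

namespace Pool.Agent.D0H9.BF

/-- Module NDG. -/
theorem t_NDG : Pool.Agent.D0H95.BF.S_NDG := Ndg.main

end Pool.Agent.D0H9.BF
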