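import Pool.Agent.D0H95.BF.Stm4

/-!
Module ANA (helper95, MP_5027f4_mp): the period map is real analytic in the eccentricity.
-/

set_option autoImplicit false

open Filter Topology Set MeasureTheory

namespace Pool.Agent.D0H9.BF

/-- The phase space of the linear equation. -/
abbrev E : Type := ℂ × ℂ

/-- The interval of one period. -/
abbrev I2 : Type := ↥(Icc (0 : ℝ) (2 * Real.pi))

/-- The multiplication by a family of linear maps. -/
noncomputable def mulOp : C(I2, E →L[ℝ] E) →L[ℝ] C(I2, E) →L[ℝ] C(I2, E) :=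
  LinearMap.mkContinuous₂ (LinearMap.mk₂ ℝ
    (fun (B : C(I2, E →L[ℝ] E)) (f : C(I2, E)) =>
      (⟨fun u => B u (f u), B.continuous.clm_apply f.continuous⟩ : C(I2, E)))
    (fun B B' f => by ext u <;> simp) (fun c B f => by ext u <;> simp)
    (fun B f f' => by ext u <;> simp) (fun c B f => by ext u <;> simp)) 1
    (fun B f => by
      rw [one_mul]
      refine (ContinuousMap.norm_le _ (by positivity)).mpr fun u => ?_
      exact ((B u).le_opNorm (f u)).trans (mul_le_mul (B.norm_coe_le_norm u)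
        (f.norm_coe_le_norm u) (norm_nonneg (f u)) (norm_nonneg B)))

theorem mulOp_apply (B : C(I2, E →L[ℝ] E)) (f : C(I2, E)) (u : I2) :
    mulOp B f u = B u (f u) := rfl

theorem pi2 : (0 : ℝ) ≤ 2 * Real.pi := by positivity

/-- The extension of a function to the line. -/
noncomputable def ex (f : C(I2, E)) (s : ℝ) : E := IccExtend pi2 f s

theorem ex_cont (f : C(I2, E)) : Continuous (ex f) := f.continuous.Icc_extend'

theorem ex_eq (f : C(I2, E)) {s : ℝ} (hs : s ∈ Icc (0 : ℝ) (2 * Real.pi)) : ex f s = f ⟨s, hs⟩ := by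
  unfold ex
  rw [IccExtend_of_mem _ _ hs]

theorem ex_int (f : C(I2, E)) (a b : ℝ) : IntervalIntegrable (ex f) volume a b :=
  (ex_cont f).intervalIntegrable a b

theorem ex_norm (f : C(I2, E)) (s : ℝ) : ‖ex f s‖ ≤ ‖f‖ := by
  unfold ex IccExtend
  exact f.norm_coe_le_norm _

/-- The primitive of a function. -/
noncomputable def prim (f : C(I2, E)) : C(I2, E) :=
  ⟨fun u => ∫ s in (0 : ℝ)..(u : ℝ), ex f s,
    (intervalIntegral.continuous_primitive (ex_int f) 0).comp continuous_subtype_val⟩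

theorem prim_apply (f : C(I2, E)) (u : I2) : prim f u = ∫ s in (0 : ℝ)..(u : ℝ), ex f s := rfl

/-- The primitive as a continuous linear map. -/
noncomputable def JOp : C(I2, E) →L[ℝ] C(I2, E) :=
  LinearMap.mkContinuous
    { toFun := prim
      map_add' := fun f g => by
        ext1 u
        rw [ContinuousMap.add_apply, prim_apply, prim_apply, prim_apply,
          ← intervalIntegral.integral_add (ex_int f _ _) (ex_int g _ _)]
        rfl
      map_smul' := fun c f => by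
        ext1 u
        rw [RingHom.id_apply, ContinuousMap.smul_apply, prim_apply, prim_apply,
          ← intervalIntegral.integral_smul]
        rfl } (2 * Real.pi)
    (fun f => by
      refine (ContinuousMap.norm_le _ (by positivity)).mpr fun u => ?_
      change ‖∫ s in (0 : ℝ)..(u : ℝ), ex f s‖ ≤ 2 * Real.pi * ‖f‖
      have h1 := intervalIntegral.norm_integral_le_of_norm_le_const (a := 0) (b := (u : ℝ))
        (f := ex f) (C := ‖f‖) (fun s _ => ex_norm f s)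
      refine h1.trans ?_
      rw [sub_zero, abs_of_nonneg u.2.1, mul_comm]
      exact mul_le_mul_of_nonneg_right u.2.2 (norm_nonneg _))

theorem JOp_apply (f : C(I2, E)) (u : I2) : JOp f u = ∫ s in (0 : ℝ)..(u : ℝ), ex f s := rfl

/-- The Volterra operator. -/
noncomputable def vol : C(I2, E →L[ℝ] E) →L[ℝ] C(I2, E) →L[ℝ] C(I2, E) :=
  (ContinuousLinearMap.compL ℝ (C(I2, E)) (C(I2, E)) (C(I2, E)) JOp).comp mulOp

theorem vol_apply (B : C(I2, E →L[ℝ] E)) (f : C(I2, E)) (u : I2) :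
    vol B f u = ∫ s in (0 : ℝ)..(u : ℝ), ex (mulOp B f) s := rfl

theorem pow_bound (B : C(I2, E →L[ℝ] E)) (f : C(I2, E)) (n : ℕ) : ∀ u : I2,
    ‖((vol B) ^ n) f u‖ ≤ (‖B‖ * (u : ℝ)) ^ n / (n.factorial : ℝ) * ‖f‖ := by
  induction n with
  | zero =>
    intro u
    simpa using f.norm_coe_le_norm u
  | succ n ih =>
    intro u
    have hu0 : (0 : ℝ) ≤ u := u.2.1
    rw [pow_succ', mul_apply_eq_comp, vol_apply]
    set c : ℝ := ‖B‖ ^ (n + 1) / (n.factorial : ℝ) * ‖f‖ with hc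
    have hint : IntervalIntegrable (fun s : ℝ => c * s ^ n) volume 0 (u : ℝ) :=
      (continuous_const.mul (continuous_pow n)).intervalIntegrable _ _
    have h1 : ‖∫ s in (0 : ℝ)..(u : ℝ), ex (mulOp B (((vol B) ^ n) f)) s‖ ≤
        ∫ s in (0 : ℝ)..(u : ℝ), c * s ^ n := by
      refine intervalIntegral.norm_integral_le_of_norm_le hu0 (Eventually.of_forall ?_) hint
      intro s hs
      have hs' : s ∈ Icc (0 : ℝ) (2 * Real.pi) := ⟨hs.1.le, hs.2.trans u.2.2⟩
      rw [ex_eq _ hs', mulOp_apply]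
      calc _ ≤ ‖B ⟨s, hs'⟩‖ * ‖((vol B) ^ n) f ⟨s, hs'⟩‖ := ContinuousLinearMap.le_opNorm _ _
        _ ≤ ‖B‖ * ((‖B‖ * s) ^ n / (n.factorial : ℝ) * ‖f‖) :=
            mul_le_mul (B.norm_coe_le_norm _) (ih ⟨s, hs'⟩) (norm_nonneg _) (norm_nonneg B)
        _ = c * s ^ n := by rw [hc, mul_pow]; ring
    refine h1.trans (le_of_eq ?_)
    rw [intervalIntegral.integral_const_mul, integral_pow, hc]
    rw [Nat.factorial_succ, mul_pow]
    push_cast
    have hn : (n.factorial : ℝ) ≠ 0 := by exact_mod_cast n.factorial_ne_zero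
    have hn1 : (n : ℝ) + 1 ≠ 0 := by positivity
    field_simp
    simp

theorem unit_vol (B : C(I2, E →L[ℝ] E)) : IsUnit (1 - vol B) := by
  have h1 := FloorSemiring.tendsto_pow_div_factorial_atTop (‖B‖ * (2 * Real.pi))
  obtain ⟨n, hn⟩ := (h1.eventually (gt_mem_nhds (zero_lt_one : (0 : ℝ) < 1))).exists
  have h2 : ‖(vol B) ^ n‖ < 1 := by
    refine lt_of_le_of_lt ?_ hn
    refine ContinuousLinearMap.opNorm_le_bound _ (by positivity) (fun f => ?_)
    refine (ContinuousMap.norm_le _ (by positivity)).mpr fun u => ?_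
    refine (pow_bound B f n u).trans ?_
    have hu0 : (0 : ℝ) ≤ u := u.2.1
    have hu1 : (u : ℝ) ≤ 2 * Real.pi := u.2.2
    gcongr
  have h3 : IsUnit (1 - (vol B) ^ n) :=
    isUnit_one_sub_of_norm_lt_one (R := C(I2, E) →L[ℝ] C(I2, E)) h2
  have h5 : (1 - vol B) * (∑ i ∈ Finset.range n, vol B ^ i) = 1 - (vol B) ^ n :=
    mul_neg_geom_sum (vol B) n
  have h6 : (∑ i ∈ Finset.range n, vol B ^ i) * (1 - vol B) = 1 - (vol B) ^ n :=
    geom_sum_mul_neg (vol B) n
  rw [← h5] at h3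
  have h4 : Commute (1 - vol B) (∑ i ∈ Finset.range n, vol B ^ i) := by
    rw [commute_iff_eq, h5, h6]
  exact (h4.isUnit_mul_iff.mp h3).1

/-- The constant functions. -/
noncomputable def cst : E →L[ℝ] C(I2, E) :=
  LinearMap.mkContinuous
    { toFun := fun w => ContinuousMap.const I2 w
      map_add' := fun _ _ => rfl
      map_smul' := fun _ _ => rfl } 1
    (fun w => by
      rw [one_mul]
      exact (ContinuousMap.norm_le _ (norm_nonneg _)).mpr fun u => le_rfl)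

theorem cst_apply (w : E) (u : I2) : cst w u = w := rfl

/-- The end of the interval. -/
noncomputable def pe : I2 := ⟨2 * Real.pi, pi2, le_rfl⟩

/-- The evaluation at the end. -/
noncomputable def ev : C(I2, E) →L[ℝ] E :=
  LinearMap.mkContinuous
    { toFun := fun f => f pe
      map_add' := fun _ _ => rfl
      map_smul' := fun _ _ => rfl } 1
    (fun f => by
      rw [one_mul]
      exact f.norm_coe_le_norm pe)

theorem ev_apply (f : C(I2, E)) : ev f = f pe := rfl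

/-- The period map of the linear equation with coefficients `B`. -/
noncomputable def per (T : C(I2, E) →L[ℝ] C(I2, E)) : E →L[ℝ] E := ev.comp (T.comp cst)

/-- The same as a continuous linear map. -/
noncomputable def perL : (C(I2, E) →L[ℝ] C(I2, E)) →L[ℝ] (E →L[ℝ] E) :=
  (ContinuousLinearMap.compL ℝ E (C(I2, E)) E ev).comp
    ((ContinuousLinearMap.compL ℝ E (C(I2, E)) (C(I2, E))).flip cst)

theorem perL_apply (T : C(I2, E) →L[ℝ] C(I2, E)) (w : E) : perL T w = T (cst w) pe := rfl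

/-- The family `φ • A` as a linear map. -/
noncomputable def smulLin (A : E →L[ℝ] E) : C(I2, ℝ) →ₗ[ℝ] C(I2, E →L[ℝ] E) where
  toFun φ := ⟨fun u => φ u • A, φ.continuous.smul continuous_const⟩
  map_add' φ ψ := by
    ext1 u
    exact add_smul (φ u) (ψ u) A
  map_smul' c φ := by
    ext1 u
    exact mul_smul c (φ u) A

theorem smulLin_norm (A : E →L[ℝ] E) (φ : C(I2, ℝ)) : ‖smulLin A φ‖ ≤ ‖A‖ * ‖φ‖ := by
  refine (ContinuousMap.norm_le _ (mul_nonneg (norm_nonneg A) (norm_nonneg φ))).mpr fun u => ?_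
  change ‖φ u • A‖ ≤ ‖A‖ * ‖φ‖
  rw [norm_smul, mul_comm]
  exact mul_le_mul_of_nonneg_left (φ.norm_coe_le_norm u) (norm_nonneg _)

/-- The family `φ • A`. -/
noncomputable def smulOp (A : E →L[ℝ] E) : C(I2, ℝ) →L[ℝ] C(I2, E →L[ℝ] E) :=
  LinearMap.mkContinuous (𝕜 := ℝ) (𝕜₂ := ℝ) (E := C(I2, ℝ)) (F := C(I2, E →L[ℝ] E))
    (σ := RingHom.id ℝ) (smulLin A) ‖A‖ (smulLin_norm A)

theorem smulOp_apply (A : E →L[ℝ] E) (φ : C(I2, ℝ)) (u : I2) : smulOp A φ u = φ u • A := rfl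

theorem smulOp_an (A : E →L[ℝ] E) (φ : C(I2, ℝ)) : AnalyticAt ℝ (smulOp A) φ :=
  ContinuousLinearMap.analyticAt (𝕜 := ℝ) (E := C(I2, ℝ)) (F := C(I2, E →L[ℝ] E)) (smulOp A) φ

theorem vol_an (B : C(I2, E →L[ℝ] E)) : AnalyticAt ℝ vol B :=
  ContinuousLinearMap.analyticAt (𝕜 := ℝ) (E := C(I2, E →L[ℝ] E))
    (F := C(I2, E) →L[ℝ] C(I2, E)) vol B

theorem perL_an (T : C(I2, E) →L[ℝ] C(I2, E)) : AnalyticAt ℝ perL T :=
  ContinuousLinearMap.analyticAt (𝕜 := ℝ) (E := C(I2, E) →L[ℝ] C(I2, E))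
    (F := E →L[ℝ] E) perL T

/-- The cosine. -/
noncomputable def cosI : C(I2, ℝ) := ⟨fun u => Real.cos u, by fun_prop⟩

theorem cosI_norm : ‖cosI‖ ≤ 1 :=
  (ContinuousMap.norm_le _ zero_le_one).mpr fun u => Real.abs_cos_le_one _

theorem unit_cos {e : ℝ} (he : |e| < 1) : IsUnit (1 - e • cosI) := by
  apply isUnit_one_sub_of_norm_lt_one
  rw [norm_smul, Real.norm_eq_abs]
  exact lt_of_le_of_lt (mul_le_of_le_one_right (abs_nonneg _) cosI_norm) he

/-- The function `1 / (1 - e cos u)`. -/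
noncomputable def Rf (e : ℝ) : C(I2, ℝ) := Ring.inverse (1 - e • cosI)

theorem Rf_an {e : ℝ} (he : |e| < 1) : AnalyticAt ℝ Rf e := by
  obtain ⟨z, hz⟩ := unit_cos he
  have h1 : AnalyticAt ℝ (Ring.inverse : C(I2, ℝ) → C(I2, ℝ)) (1 - e • cosI) := by
    rw [← hz]
    exact analyticAt_inverse z
  have h2 : AnalyticAt ℝ (fun e : ℝ => (1 : C(I2, ℝ)) - e • cosI) e :=
    analyticAt_const.sub (analyticAt_id.smul analyticAt_const)
  exact AnalyticAt.comp (g := (Ring.inverse : C(I2, ℝ) → C(I2, ℝ)))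
    (f := fun e : ℝ => (1 : C(I2, ℝ)) - e • cosI) h1 h2

theorem Rf_apply {e : ℝ} (he : |e| < 1) (u : I2) : Rf e u = (1 - e * Real.cos u)⁻¹ := by
  have h1 : Rf e * (1 - e • cosI) = 1 := Ring.inverse_mul_cancel _ (unit_cos he)
  have h2 := congrArg (fun φ : C(I2, ℝ) => φ u) h1
  have h3 : Rf e u * (1 - e * Real.cos u) = 1 := h2
  exact eq_inv_of_mul_eq_one_left h3

theorem main (κ : ℝ) : ∃ N : ℝ → (ℂ × ℂ →L[ℝ] ℂ × ℂ), AnalyticOnNhd ℝ N (Ioo (-1) 1) ∧
  ∀ e : ℝ, |e| < 1 → ∀ ζ η : ℝ → ℂ,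
    (∀ u, HasDerivAt ζ (η u / ((1 - e * Real.cos u : ℝ) : ℂ)) u) →
    (∀ u, HasDerivAt η (3 / 2 * ζ u + κ * (starRingEnd ℂ) (ζ u) -
      2 * Real.sqrt (1 - e ^ 2) * Complex.I * (η u / ((1 - e * Real.cos u : ℝ) : ℂ))) u) →
    N e (ζ 0, η 0) = (ζ (2 * Real.pi), η (2 * Real.pi)) := by
  set fs : E →L[ℝ] ℂ := ContinuousLinearMap.fst ℝ ℂ ℂ with hfs
  set sn : E →L[ℝ] ℂ := ContinuousLinearMap.snd ℝ ℂ ℂ with hsn
  set A₀ : E →L[ℝ] E := ContinuousLinearMap.prod 0
    ((3 / 2 : ℝ) • fs + κ • (Complex.conjCLE.toContinuousLinearMap.comp fs)) with hA₀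
  set A₁ : E →L[ℝ] E := ContinuousLinearMap.prod sn 0 with hA₁
  set A₂ : E →L[ℝ] E := ContinuousLinearMap.prod 0
    ((-2 : ℝ) • ((ContinuousLinearMap.mul ℝ ℂ Complex.I).comp sn)) with hA₂
  set Bf : ℝ → C(I2, E →L[ℝ] E) := fun e =>
    smulOp A₀ 1 + smulOp A₁ (Rf e) + Real.sqrt (1 - e ^ 2) • smulOp A₂ (Rf e) with hBf
  refine ⟨fun e => perL (Ring.inverse (1 - vol (Bf e))), ?_, ?_⟩
  · intro e he
    have he1 : |e| < 1 := abs_lt.mpr he
    have hR := Rf_an he1
    have hs : AnalyticAt ℝ (fun e : ℝ => Real.sqrt (1 - e ^ 2)) e := by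
      have h0 : (1 - e ^ 2) ≠ 0 := by
        have : e ^ 2 < 1 := by rw [← sq_abs]; nlinarith [abs_nonneg e]
        linarith
      have h1 : AnalyticAt ℝ Real.sqrt (1 - e ^ 2) :=
        (Real.contDiffAt_sqrt (n := ⊤) h0).analyticAt
      have h2 : AnalyticAt ℝ (fun e : ℝ => 1 - e ^ 2) e :=
        analyticAt_const.sub (analyticAt_id.pow 2)
      exact AnalyticAt.comp (g := Real.sqrt) (f := fun e : ℝ => 1 - e ^ 2) h1 h2
    have hB1 : AnalyticAt ℝ (fun e => smulOp A₁ (Rf e)) e :=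
      AnalyticAt.comp (g := smulOp A₁) (f := Rf) (smulOp_an A₁ (Rf e)) hR
    have hB2 : AnalyticAt ℝ (fun e => smulOp A₂ (Rf e)) e :=
      AnalyticAt.comp (g := smulOp A₂) (f := Rf) (smulOp_an A₂ (Rf e)) hR
    have hB3 : AnalyticAt ℝ (fun e : ℝ => Real.sqrt (1 - e ^ 2) • smulOp A₂ (Rf e)) e :=
      hs.fun_smul hB2
    have hB0 : AnalyticAt ℝ (fun _ : ℝ => smulOp A₀ 1) e := analyticAt_const
    have hB : AnalyticAt ℝ Bf e := (hB0.fun_add hB1).fun_add hB3
    have hV1 : AnalyticAt ℝ (fun e => vol (Bf e)) e :=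
      AnalyticAt.comp (g := vol) (f := Bf) (vol_an (Bf e)) hB
    have hV0 : AnalyticAt ℝ (fun _ : ℝ => (1 : C(I2, E) →L[ℝ] C(I2, E))) e := analyticAt_const
    have hV : AnalyticAt ℝ (fun e => 1 - vol (Bf e)) e := hV0.fun_sub hV1
    obtain ⟨z, hz⟩ := unit_vol (Bf e)
    have hI : AnalyticAt ℝ (Ring.inverse : (C(I2, E) →L[ℝ] C(I2, E)) →
        (C(I2, E) →L[ℝ] C(I2, E))) (1 - vol (Bf e)) := by
      rw [← hz]
      exact analyticAt_inverse (𝕜 := ℝ) (A := C(I2, E) →L[ℝ] C(I2, E)) z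
    have hJ : AnalyticAt ℝ (fun e => Ring.inverse (1 - vol (Bf e))) e :=
      AnalyticAt.comp (g := (Ring.inverse : (C(I2, E) →L[ℝ] C(I2, E)) →
        (C(I2, E) →L[ℝ] C(I2, E)))) (f := fun e => 1 - vol (Bf e)) hI hV
    exact AnalyticAt.comp (g := perL) (f := fun e => Ring.inverse (1 - vol (Bf e)))
      (perL_an _) hJ
  · intro e he ζ η hζ hη
    have hr : ∀ u : ℝ, 0 < 1 - e * Real.cos u := by
      intro u
      have h1 : |e * Real.cos u| < 1 := by
        rw [abs_mul]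
        exact lt_of_le_of_lt (mul_le_of_le_one_right (abs_nonneg _) (Real.abs_cos_le_one _)) he
      linarith [(abs_lt.mp h1).2]
    have cζ : Continuous ζ := continuous_iff_continuousAt.mpr fun u => (hζ u).continuousAt
    have cη : Continuous η := continuous_iff_continuousAt.mpr fun u => (hη u).continuousAt
    set f : C(I2, E) := ⟨fun u => (ζ u, η u), by fun_prop⟩ with hf
    have hkey : (1 - vol (Bf e)) f = cst (ζ 0, η 0) := by
      ext1 u
      rw [sub_apply, one_apply_eq_self, ContinuousMap.sub_apply,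
        vol_apply, cst_apply]
      have h1 : ∀ s : ℝ, HasDerivAt (fun s => ((ζ s, η s) : E))
          (η s / ((1 - e * Real.cos s : ℝ) : ℂ), 3 / 2 * ζ s + κ * (starRingEnd ℂ) (ζ s) -
      2 * Real.sqrt (1 - e ^ 2) * Complex.I * (η s / ((1 - e * Real.cos s : ℝ) : ℂ))) s :=
        fun s => (hζ s).prodMk (hη s)
      have hu0 : (0 : ℝ) ≤ u := u.2.1
      have h2 : ∀ s ∈ uIcc (0 : ℝ) (u : ℝ), HasDerivAt (fun s => ((ζ s, η s) : E))
          (ex (mulOp (Bf e) f) s) s := by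
        intro s hs
        rw [uIcc_of_le hu0] at hs
        have hs' : s ∈ Icc (0 : ℝ) (2 * Real.pi) := ⟨hs.1, hs.2.trans u.2.2⟩
        refine (h1 s).congr_deriv ?_
        rw [ex_eq _ hs', mulOp_apply]
        have h3 : (Bf e) ⟨s, hs'⟩ = A₀ + (Rf e ⟨s, hs'⟩) • A₁ +
            Real.sqrt (1 - e ^ 2) • ((Rf e ⟨s, hs'⟩) • A₂) := by
          simp only [hBf, ContinuousMap.add_apply, ContinuousMap.smul_apply, smulOp_apply,
            ContinuousMap.one_apply, one_smul]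
        rw [h3, Rf_apply he]
        have h4 : f ⟨s, hs'⟩ = (ζ s, η s) := rfl
        rw [h4]
        have h5 : ((1 - e * Real.cos s : ℝ) : ℂ) ≠ 0 := by exact_mod_cast (hr s).ne'
        refine Prod.ext ?_ ?_
        · simp [hA₀, hA₁, hA₂, hfs, hsn, div_eq_inv_mul]
        · simp [hA₀, hA₁, hA₂, hfs, hsn, div_eq_inv_mul]
          ring
      have h3 := intervalIntegral.integral_eq_sub_of_hasDerivAt h2 (ex_int _ _ _)
      rw [h3]
      have h4 : f u = (ζ u, η u) := rfl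
      rw [h4, sub_sub_cancel]
    have h1 : Ring.inverse (1 - vol (Bf e)) * (1 - vol (Bf e)) = 1 :=
      Ring.inverse_mul_cancel _ (unit_vol (Bf e))
    have h2 : Ring.inverse (1 - vol (Bf e)) (cst (ζ 0, η 0)) = f := by
      rw [← hkey, ← mul_apply_eq_comp, h1, one_apply_eq_self]
    show perL (Ring.inverse (1 - vol (Bf e))) (ζ 0, η 0) = _
    rw [perL_apply, h2]
    rfl

theorem t_ANA : Pool.Agent.D0H95.BF.S_ANA := fun κ => main κ

end Pool.Agent.D0H9.BF
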